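import Pool.Agent.Helper96.ME.Lib

/-!
# Module OPA : the operators preserve equivariance and sign
-/

set_option autoImplicit false

namespace Pool.Agent.Helper96.ME

open Pool.Agent.Helper96.MP
open scoped MatrixGroups

theorem opa_sum {M : ℕ} [Fintype SL(2, ZMod M)] (Q : ℕ) (κ : SL(2, ZMod M) → ℝ) (C : ℤ → ℤ → ℝ)
    (x y : ℤ) : hh M Q κ C x y = ∑ g : SL(2, ZMod M), κ g * ca M C (lf M Q g) x y := by
  unfold hh
  exact finsum_eq_sum_of_fintype _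

/-- two lifts with the same reduction up to the torus -/
theorem opa_eqc (hCAI : ST_CAI) {M Q : ℕ} {C : ℤ → ℤ → ℝ} (hM : 1 ≤ M) (hQ : 1 ≤ Q)
    (hc : Nat.Coprime Q M) (hC : Hom0 C) (hE : EqC (Q * M ^ 2) C) {g g' : SL(2, ℤ)}
    (hg : (Q : ℤ) ∣ g 1 0) (hg' : (Q : ℤ) ∣ g' 1 0) (h : rd M g' = rd M g) :
    eqc (ca M C g') (ca M C g) :=
  ((hCAI M Q C hM hQ hc hC).2.2 hE).1 g g' hg hg' ⟨1, by rw [Lib.dg_one, one_mul]; exact h⟩

theorem opa_neg {M : ℕ} {C : ℤ → ℤ → ℝ} {ε c : ℝ} (hM : 1 ≤ M)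
    (hs : ∀ x y : ℤ, (x ≠ 0 ∨ y ≠ 0) → C (-x) y = ε * C x y + c) (g : SL(2, ℤ)) (x y : ℤ)
    (hxy : x ≠ 0 ∨ y ≠ 0) : ca M C g (-x) y = ε * ca M C (cj g) x y + c := by
  unfold ca
  simp only [Lib.cj00, Lib.cj01, Lib.cj10, Lib.cj11]
  have hne : ((M : ℤ) * g 0 0 * x + (-g 0 1) * y ≠ 0 ∨
      (M : ℤ) ^ 2 * (-g 1 0) * x + (M : ℤ) * g 1 1 * y ≠ 0) := by
    refine Lib.ne_zero_of_det ?_ hxy
    have hd := Lib.det1 g
    have hM0 : (M : ℤ) ≠ 0 := by exact_mod_cast (by omega : M ≠ 0)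
    have e : (M : ℤ) * g 0 0 * ((M : ℤ) * g 1 1) - (-g 0 1) * ((M : ℤ) ^ 2 * (-g 1 0)) =
        (M : ℤ) ^ 2 := by
      linear_combination (M : ℤ) ^ 2 * hd
    rw [e]
    exact pow_ne_zero 2 hM0
  have h1 := hs _ _ hne
  rw [← h1]
  congr 1 <;> ring

theorem st_OPA (hCAI : ST_CAI) (hLFT : ST_LFT) : ST_OPA := by
  intro M Q ε C κ hM hQ hc hκ1 hκ2 hC hE
  haveI : NeZero M := ⟨by omega⟩
  classical
  haveI : Fintype SL(2, ZMod M) := Fintype.ofFinite _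
  have hl1 : ∀ g : SL(2, ZMod M), (Q : ℤ) ∣ (lf M Q g) 1 0 := fun g => ((hLFT M Q hM hQ hc).1 g).1
  have hl2 : ∀ g : SL(2, ZMod M), rd M (lf M Q g) = g := fun g => ((hLFT M Q hM hQ hc).1 g).2
  refine ⟨?_, ?_, ?_⟩
  · intro k p q hk
    rw [opa_sum, opa_sum]
    refine Finset.sum_congr rfl fun g _ => ?_
    rw [(hCAI M Q C hM hQ hc hC).1 (lf M Q g) k p q hk]
  · intro p q r s hG x y hxy
    obtain ⟨γ, hγQ, ⟨u, hu⟩, hγ⟩ := ((hCAI M Q C hM hQ hc hC).2.2 hE).2 p q r s hG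
    -- the constant
    have key : ∃ c : ℝ, ∀ x y : ℤ, (x ≠ 0 ∨ y ≠ 0) →
        hh M Q κ C (p * x + q * y) (r * x + s * y) = hh M Q κ C x y + c := by
      have hE1 : ∀ g ∈ (Finset.univ : Finset SL(2, ZMod M)),
          eqc (ca M C (lf M Q g * γ)) (ca M C (lf M Q (g * dg u))) := by
        intro g _
        refine opa_eqc hCAI hM hQ hc hC hE (hl1 _) ?_ ?_
        · rw [Lib.mul10]
          exact dvd_add (Dvd.dvd.mul_right (hl1 g) _) (Dvd.dvd.mul_left hγQ _)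
        · rw [Lib.rd_mul, hl2, hl2, hu]
      obtain ⟨c, hcc⟩ := Lib.eqc_sum Finset.univ κ _ _ hE1
      refine ⟨c, fun x y hxy => ?_⟩
      have h1 := hcc x y hxy
      simp only at h1
      rw [opa_sum, opa_sum]
      have h2 : ∑ g : SL(2, ZMod M), κ g * ca M C (lf M Q g) (p * x + q * y) (r * x + s * y) =
          ∑ g : SL(2, ZMod M), κ g * ca M C (lf M Q g * γ) x y :=
        Finset.sum_congr rfl fun g _ => by rw [hγ]
      rw [h2, h1]
      congr 1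
      refine Fintype.sum_equiv (Equiv.mulRight (dg u)) _ _ fun g => ?_
      simp only [Equiv.coe_mulRight]
      rw [hκ1]
    obtain ⟨c, hcc⟩ := key
    have h1 := hcc 1 0 (Or.inl one_ne_zero)
    have h2 := hcc x y hxy
    simp only [mul_one, mul_zero, add_zero] at h1
    rw [h2, h1]
    ring
  · rintro ⟨c0, hs⟩
    have hE1 : ∀ g ∈ (Finset.univ : Finset SL(2, ZMod M)),
        eqc (ca M C (cj (lf M Q g))) (ca M C (lf M Q (sg (-1) g))) := by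
      intro g _
      refine opa_eqc hCAI hM hQ hc hC hE (hl1 _) ?_ ?_
      · rw [Lib.cj10]
        exact (dvd_neg).mpr (hl1 g)
      · rw [Lib.rd_cj, hl2, hl2]
    obtain ⟨c, hcc⟩ := Lib.eqc_sum Finset.univ κ _ _ hE1
    refine ⟨ε * c + (∑ g : SL(2, ZMod M), κ g) * c0, fun x y hxy => ?_⟩
    have h1 := hcc x y hxy
    simp only at h1
    rw [opa_sum, opa_sum]
    have h2 : ∑ g : SL(2, ZMod M), κ g * ca M C (lf M Q g) (-x) y =
        ε * ∑ g : SL(2, ZMod M), κ g * ca M C (cj (lf M Q g)) x y +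
          (∑ g : SL(2, ZMod M), κ g) * c0 := by
      rw [Finset.mul_sum, Finset.sum_mul, ← Finset.sum_add_distrib]
      refine Finset.sum_congr rfl fun g _ => ?_
      rw [opa_neg hM hs _ _ _ hxy]
      ring
    have h3 : ∑ g : SL(2, ZMod M), κ g * ca M C (lf M Q (sg (-1) g)) x y =
        ∑ g : SL(2, ZMod M), κ g * ca M C (lf M Q g) x y := by
      refine Fintype.sum_equiv (Lib.sgE (-1)) _ _ fun g => ?_
      rw [Lib.sgE_apply, hκ2]
    rw [h2, h1, h3]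
    ring

end Pool.Agent.Helper96.ME
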